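import Pool.Agent.Lib.MP_7f333f_an.Ex.JQ
import Pool.Agent.Lib.MP_7f333f_an.Ex.Rep
import Pool.Agent.Lib.MP_7f333f_an.Lin.Nec

set_option autoImplicit false

/-!
If the combinatorial Banach space `X` of a regular family has a complemented subspace isomorphic to
the space `c₀(X)` of its null sequences, then all the closed subgroups of `SYM(ℕ)` with a central
involution are topologically displayable on `X`, as on `c₀`. There are such families beyond each
regular family `𝓚`: the combinatorial space of `𝓚` is isomorphic to a complemented subspace.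
-/

namespace Pool.Agent.Results.MP_7f333f_an.ExoticFamilies

open Pool.Agent.Comb7f333f Pool.Agent.Comb7f333f.LPart Pool.Agent.Comb7f333f.XPart ZeroAtInfty

/-- The group `H` is isomorphic, as an abstract group, to the group of linear isometries of an
equivalent norm of `X`. -/
def Displayable (H : Type*) [Group H] (X : Type*) [NormedAddCommGroup X] [NormedSpace ℝ X] :
    Prop :=
  ∃ N : Seminorm ℝ X, (∃ c C : ℝ, 0 < c ∧ ∀ x, c * ‖x‖ ≤ N x ∧ N x ≤ C * ‖x‖) ∧
    Nonempty (H ≃* isomGroup N)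

/-- The group `G` of permutations is isomorphic to the group of linear isometries of an equivalent
norm `N` of `X` by a map `Φ` which is a homeomorphism, for the topology of pointwise convergence on
`G` and the strong operator topology: the elements which fix a large finite set move `x` by less
than `ε`, and for each `n` there are a finite set `S` of vectors and `ε` such that
`N (Φ g x - x) < ε` for all `x ∈ S` forces `g n = n`. -/
def TopDisplayable (G : Subgroup (Equiv.Perm ℕ)) (X : Type*) [NormedAddCommGroup X]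
    [NormedSpace ℝ X] : Prop :=
  ∃ N : Seminorm ℝ X, (∃ c C : ℝ, 0 < c ∧ ∀ x, c * ‖x‖ ≤ N x ∧ N x ≤ C * ‖x‖) ∧
    ∃ Φ : G ≃* isomGroup N,
      (∀ x, ∀ ε > 0, ∃ F : Finset ℕ, ∀ g : G, (∀ n ∈ F, (g : Equiv.Perm ℕ) n = n) →
        N ((Φ g : X ≃ₗ[ℝ] X) x - x) < ε) ∧
      (∀ n, ∃ S : Finset X, ∃ ε > 0, ∀ g : G, (∀ x ∈ S, N ((Φ g : X ≃ₗ[ℝ] X) x - x) < ε) →
        (g : Equiv.Perm ℕ) n = n)

/-- The space has a complemented subspace isomorphic to the space of its null sequences, with the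
supremum norm. -/
def ContainsC0Sum (X : Type*) [NormedAddCommGroup X] [NormedSpace ℝ X] : Prop :=
  ∃ (J : C₀(ℕ, X) →L[ℝ] X) (Q : X →L[ℝ] C₀(ℕ, X)), ∀ f, Q (J f) = f

/-- The group has a central element of order two. -/
def HasCentralInvolution (G : Type*) [Group G] : Prop :=
  ∃ z : G, z ≠ 1 ∧ z * z = 1 ∧ ∀ g : G, g * z = z * g

/-- (1) Let `X` be the combinatorial Banach space of a regular family, with a complemented subspace
isomorphic to `c₀(X)`, and let `G` be a closed subgroup of `SYM(ℕ)`. Then `G` is topologically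
displayable on `X` if and only if `G` is displayable on `X` as an abstract group, if and only if
`G` has a central element of order two.

(2) For each regular family `𝓚` there is a regular family `𝓕` such that the combinatorial Banach
space `X` of `𝓕` has the property of (1), and the combinatorial space of `𝓚` is isomorphic to a
complemented subspace of `X`. -/
theorem result :
    (∀ 𝓕 : Set (Finset ℕ), IsRegular 𝓕 →
      ∀ (X : Type*) [NormedAddCommGroup X] [NormedSpace ℝ X] [CompleteSpace X] (e : ℕ → X),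
      IsCombSpace 𝓕 e → ContainsC0Sum X →
      ∀ G : Subgroup (Equiv.Perm ℕ), IsClosedPerm G →
        (TopDisplayable G X ↔ HasCentralInvolution G) ∧
        (Displayable G X ↔ HasCentralInvolution G)) ∧
    ∀ 𝓚 : Set (Finset ℕ), IsRegular 𝓚 → ∃ 𝓕 : Set (Finset ℕ), IsRegular 𝓕 ∧
      ∀ (X : Type*) [NormedAddCommGroup X] [NormedSpace ℝ X] [CompleteSpace X] (e : ℕ → X),
      IsCombSpace 𝓕 e → ContainsC0Sum X ∧
        ∀ (Y : Type*) [NormedAddCommGroup Y] [NormedSpace ℝ Y] [CompleteSpace Y] (e' : ℕ → Y),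
        IsCombSpace 𝓚 e' → ∃ (U : Y →L[ℝ] X) (W : X →L[ℝ] Y), ∀ y, W (U y) = y := by
  refine ⟨?_, fun 𝓚 h𝓚 => ⟨exF 𝓚, exF_regular h𝓚, fun X _ _ _ e hX => ⟨exists_JQ h𝓚 hX,
    fun Y _ _ _ e' hY => exists_UW h𝓚 hX hY⟩⟩⟩
  intro 𝓕 hreg X _ _ _ e hX hJQ G hG
  have hnt : Nontrivial X := ⟨e 0, 0, basis_ne_zero hreg hX 0⟩
  have h1 : Displayable G X → HasCentralInvolution G := by
    rintro ⟨N, hN, ⟨Φ⟩⟩
    obtain ⟨z, hz, hzz, π, -, hπz, -⟩ := oddRep_of_disp N hN Φ
    exact ⟨z, ne_one_of_odd π z hπz, hzz, hz⟩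
  have h2 : TopDisplayable G X → Displayable G X := by
    rintro ⟨N, hN, Φ, -⟩
    exact ⟨N, hN, ⟨Φ⟩⟩
  have h3 : HasCentralInvolution G → TopDisplayable G X := by
    rintro ⟨z, hz1, hzz, hz⟩
    -- the involution moves a point
    obtain ⟨N0, hN0⟩ : ∃ N0 : ℕ, ¬ ∀ j : ℕ, j < N0 → (z : Equiv.Perm ℕ) j = j := by
      by_contra hcon
      push Not at hcon
      exact hz1 (Subtype.ext (Equiv.ext fun j => hcon (j + 1) j (Nat.lt_succ_self j)))
    have hfree : ∀ p : ℕ × Orb G N0, z • p ≠ p := by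
      intro p hp
      obtain ⟨k, hk⟩ := stab_of_fix z p hp
      refine hN0 fun j hj => ?_
      have h4 := hk j hj
      have h5 : k⁻¹ * z * k = z := by
        rw [mul_assoc, ← hz, inv_mul_cancel_left]
      rwa [h5] at h4
    obtain ⟨J, Q, hQJ⟩ := hJQ
    obtain ⟨T⟩ := iso_of_complemented J Q hQJ
    obtain ⟨π, K, hK, hπz, hc⟩ := exists_oddRep (I := ℕ × Orb G N0) T z hz hzz hfree
    obtain ⟨N, hN, Φ, hΦ1, hΦ2⟩ := main_lin hreg hX G hG z hz hzz π K hK (fun x ε hε => by
      classical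
      obtain ⟨F, hF⟩ := hc x ε hε
      refine ⟨F.biUnion fun p => insert p.1 (Finset.univ.image p.2.1), fun g hg =>
        hF g ?_⟩
      rintro ⟨n, t⟩ hp
      have e1 : (g : Equiv.Perm ℕ) n = n := hg n (Finset.mem_biUnion.mpr
        ⟨(n, t), hp, Finset.mem_insert_self _ _⟩)
      have e2 : ∀ j, (g : Equiv.Perm ℕ) (t.1 j) = t.1 j := fun j =>
        hg _ (Finset.mem_biUnion.mpr ⟨(n, t), hp, Finset.mem_insert_of_mem
          (Finset.mem_image_of_mem _ (Finset.mem_univ j))⟩)
      rw [smul_pair, e1]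
      exact Prod.ext rfl (Subtype.ext (funext fun j => e2 j))) hπz
    refine ⟨N, hN, Φ, hΦ1, fun n => ?_⟩
    obtain ⟨x, ε, hε, hx⟩ := hΦ2 n
    exact ⟨{x}, ε, hε, fun g hg => hx g (hg x (Finset.mem_singleton_self x))⟩
  exact ⟨⟨fun h => h1 (h2 h), h3⟩, ⟨h1, fun h => h2 (h3 h)⟩⟩

end Pool.Agent.Results.MP_7f333f_an.ExoticFamilies
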