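import Pool.Agent.Lib.MP_7f333f_an.RP.Thm
import Pool.Agent.Lib.MP_7f333f_an.Un.ULoc
import Pool.Agent.Lib.MP_7f333f_an.Un.UEmb
import Pool.Agent.Lib.MP_7f333f_an.Tame.Final
import Pool.Agent.Lib.MP_7f333f_an.Tame.Transfer

set_option autoImplicit false

/-!
The groups with a central involution which are locally of finite index over an open subgroup not
containing the involution. On the combinatorial spaces of the regular families with sets of every
size and far unions (such as the Schreier families), these are exactly the topologically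
displayable groups among the closed Roelcke precompact groups. For some of these families they are
all topologically displayable; on the Schreier spaces some of them are not displayable.
-/

namespace Pool.Agent.Results.MP_7f333f_an.IntermediateFamilies

open Pool.Agent.Comb7f333f Pool.Agent.Comb7f333f.TPart Pool.Agent.Comb7f333f.UPart

/-- The group `H` is isomorphic, as an abstract group, to the group of linear isometries of an
equivalent norm of `X`. -/
def Displayable (H : Type*) [Group H] (X : Type*) [NormedAddCommGroup X] [NormedSpace ℝ X] :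
    Prop :=
  ∃ N : Seminorm ℝ X, (∃ c C : ℝ, 0 < c ∧ ∀ x, c * ‖x‖ ≤ N x ∧ N x ≤ C * ‖x‖) ∧
    Nonempty (H ≃* isomGroup N)

/-- The group `G` of permutations is isomorphic to the group of linear isometries of an equivalent
norm `N` of `X` by a map `Φ` which is a homeomorphism, for the topology of pointwise convergence on
`G` and the strong operator topology: the elements which fix a large finite set move `x` by less
than `ε`, and for each `n` there are a finite set `S` of vectors and `ε` such that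
`N (Φ g x - x) < ε` for all `x ∈ S` forces `g n = n`. -/
def TopDisplayable (G : Subgroup (Equiv.Perm ℕ)) (X : Type*) [NormedAddCommGroup X]
    [NormedSpace ℝ X] : Prop :=
  ∃ N : Seminorm ℝ X, (∃ c C : ℝ, 0 < c ∧ ∀ x, c * ‖x‖ ≤ N x ∧ N x ≤ C * ‖x‖) ∧
    ∃ Φ : G ≃* isomGroup N,
      (∀ x, ∀ ε > 0, ∃ F : Finset ℕ, ∀ g : G, (∀ n ∈ F, (g : Equiv.Perm ℕ) n = n) →
        N ((Φ g : X ≃ₗ[ℝ] X) x - x) < ε) ∧
      (∀ n, ∃ S : Finset X, ∃ ε > 0, ∀ g : G, (∀ x ∈ S, N ((Φ g : X ≃ₗ[ℝ] X) x - x) < ε) →
        (g : Equiv.Perm ℕ) n = n)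

/-- The group is Roelcke precompact: for each finite set `F` there are finitely many permutations
`s` such that each element of the group is `v s w` with `v` and `w` in the group fixing `F`
pointwise. -/
def RoelckePrecompact (G : Subgroup (Equiv.Perm ℕ)) : Prop :=
  ∀ F : Finset ℕ, ∃ S : Set (Equiv.Perm ℕ), S.Finite ∧
    ∀ g ∈ G, ∃ s ∈ S, ∃ v ∈ G, ∃ w ∈ G,
      (∀ n ∈ F, v n = n) ∧ (∀ n ∈ F, w n = n) ∧ g = v * s * w

/-- There are a central `z` with `z² = 1` and a subgroup `H` which contains the pointwise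
stabiliser of a finite set but not `z`, and which has finite index in each subgroup generated by
`H` and finitely many elements. -/
def LocallyOdd (G : Subgroup (Equiv.Perm ℕ)) : Prop :=
  ∃ z : G, (∀ g : G, g * z = z * g) ∧ z * z = 1 ∧ ∃ H : Subgroup G, z ∉ H ∧
    (∃ F : Finset ℕ, ∀ g : G, (∀ n ∈ F, (g : Equiv.Perm ℕ) n = n) → g ∈ H) ∧
    ∀ E : Finset G, (H.subgroupOf (H ⊔ Subgroup.closure (E : Set G))).FiniteIndex

/-- Each nonempty set of the family has at most `φ k` elements if it contains `k`, for some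
function `φ`. -/
def SizeBounded (𝓕 : Set (Finset ℕ)) : Prop :=
  ∃ φ : ℕ → ℕ, ∀ A ∈ 𝓕, ∀ k ∈ A, A.card ≤ φ k

/-- The condition `LocallyOdd` decides the topological displayability of the closed Roelcke
precompact groups on all the combinatorial spaces of the regular families with sets of every size
and far unions; for the other closed groups it is sufficient for some of these families, but not
for the Schreier families. In detail:

(1) Let `𝓕` be a regular family with sets of every size and far unions, for example a Schreier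
family, and `X` its combinatorial Banach space. A closed Roelcke precompact subgroup `G` of
`SYM(ℕ)` is topologically displayable on `X` if and only if `LocallyOdd G` (the subgroup `H` has
then finite index in `G`).

(2) For some such family `𝓕`, which is moreover size bounded, Roelcke precompactness is not needed
for one direction of (1): all the closed subgroups `G` of `SYM(ℕ)` with `LocallyOdd G` are
topologically displayable on `X`.

(3) For the Schreier families it is needed: there is a countable closed subgroup `G` of `SYM(ℕ)`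
with `LocallyOdd G` which is not displayable, even as an abstract group, on the combinatorial
spaces of the Schreier families of the countable orders `α ≥ 1`. -/
theorem result :
    (∀ 𝓕 : Set (Finset ℕ), IsRegular 𝓕 → (∀ r : ℕ, ∃ A ∈ 𝓕, r ≤ A.card) → FarUnions 𝓕 →
      ∀ (X : Type*) [NormedAddCommGroup X] [NormedSpace ℝ X] [CompleteSpace X] (e : ℕ → X),
      IsCombSpace 𝓕 e → ∀ G : Subgroup (Equiv.Perm ℕ), IsClosedPerm G → RoelckePrecompact G →
        (TopDisplayable G X ↔ LocallyOdd G)) ∧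
    (∃ 𝓕 : Set (Finset ℕ), IsRegular 𝓕 ∧ (∀ r : ℕ, ∃ A ∈ 𝓕, r ≤ A.card) ∧ FarUnions 𝓕 ∧
      SizeBounded 𝓕 ∧
      ∀ (X : Type*) [NormedAddCommGroup X] [NormedSpace ℝ X] [CompleteSpace X] (e : ℕ → X),
      IsCombSpace 𝓕 e → ∀ G : Subgroup (Equiv.Perm ℕ), IsClosedPerm G → LocallyOdd G →
        TopDisplayable G X) ∧
    ∃ G : Subgroup (Equiv.Perm ℕ), IsClosedPerm G ∧ Countable G ∧ LocallyOdd G ∧
      ∀ (𝓕 : Set (Finset ℕ)) (α : Ordinal.{0}), SchreierFam α 𝓕 →
      ∀ (X : Type*) [NormedAddCommGroup X] [NormedSpace ℝ X] [CompleteSpace X] (e : ℕ → X),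
      IsCombSpace 𝓕 e → ¬ Displayable G X := by
  refine ⟨?_, ⟨unF, unF_regular, unF_card, unF_far, ⟨fun k => sz (bi k), fun A hA k hk =>
    card_le_sz hA hk⟩, ?_⟩, Ex.GE, Ex.GE_closed, Ex.GE_countable, ?_, ?_⟩
  · intro 𝓕 h𝓕 hcard hfar X _ _ _ e hX G hG hRoelcke
    constructor
    · rintro ⟨N, ⟨c, C, hc, hN⟩, Φ, hΦ1, _⟩
      -- minus the identity
      set ν : isomGroup N := ⟨LinearEquiv.neg ℝ, fun x => by
        rw [LinearEquiv.neg_apply, map_neg_eq_map]⟩ with hν
      have hνx : ∀ x, (ν : X ≃ₗ[ℝ] X) x = -x := fun x => rfl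
      have hνc : ∀ g : isomGroup N, g * ν = ν * g := by
        intro g
        refine Subtype.ext (LinearEquiv.ext fun x => ?_)
        show (g : X ≃ₗ[ℝ] X) (-x) = -((g : X ≃ₗ[ℝ] X) x)
        rw [map_neg]
      have hνν : ν * ν = 1 := by
        refine Subtype.ext (LinearEquiv.ext fun x => ?_)
        show -(-x) = x
        rw [neg_neg]
      obtain ⟨L, hL, hL2, hzL⟩ := exists_finiteIndex_of_hom h𝓕 hX hcard hfar hRoelcke hc hN
        (Φ : G →* isomGroup N) (fun x ε hε => by
          obtain ⟨F, hF⟩ := hΦ1 x ε hε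
          exact ⟨F, fun g hg => (hF g hg).le⟩) (Φ.symm ν) fun x => by
          show (Φ (Φ.symm ν) : X ≃ₗ[ℝ] X) x = -x
          rw [MulEquiv.apply_symm_apply]
          exact hνx x
      refine ⟨Φ.symm ν, fun g => ?_, ?_, L, hzL, hL2, fun E =>
        ⟨relIndex_ne_zero_of_finiteIndex hL _⟩⟩
      · apply Φ.injective
        rw [map_mul, map_mul, MulEquiv.apply_symm_apply, hνc]
      · apply Φ.injective
        rw [map_mul, MulEquiv.apply_symm_apply, hνν, map_one]
    · rintro ⟨z, hz, hzz, H, hzH, ⟨F, hF⟩, hE⟩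
      have hL : H.FiniteIndex := finiteIndex_of_roelcke hF (fun E => (hE E).index_ne_zero) hRoelcke
      obtain ⟨m, hm, σ, hσ, hσz⟩ := exists_rep_of_finiteIndex z hz hzz H hL ⟨F, hF⟩ hzH
      obtain ⟨N, hN, Φ, hΦ1, hΦ2⟩ := main h𝓕 hX G hG z hz hzz hm σ hσ hσz
      refine ⟨N, hN, Φ, hΦ1, fun n => ?_⟩
      obtain ⟨x, ε, hε, hx⟩ := hΦ2 n
      exact ⟨{x}, ε, hε, fun g hg => hx g (hg x (Finset.mem_singleton_self x))⟩
  · intro X _ _ _ e hX G hG
    rintro ⟨z, hz, hzz, H, hzH, ⟨F, hF⟩, hE⟩
    obtain ⟨K, hK, hHK, hfin, hU⟩ := exists_K hF fun E => (hE E).index_ne_zero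
    obtain ⟨N, hN, Φ, hΦ1, hΦ2⟩ := displayable hX G hG z hz hzz H F hF hzH K hK hHK hfin hU
    refine ⟨N, hN, Φ, hΦ1, fun n => ?_⟩
    obtain ⟨x, ε, hε, hx⟩ := hΦ2 n
    exact ⟨{x}, ε, hε, fun g hg => hx g (hg x (Finset.mem_singleton_self x))⟩
  · refine ⟨Ex.iso Ex.z, fun g => ?_, ?_, ⊥, ?_, ⟨{0}, fun g hg => ?_⟩, fun E =>
      ⟨Ex.GE_loc E⟩⟩
    · obtain ⟨a, rfl⟩ := Ex.iso.surjective g
      rw [← map_mul, ← map_mul, Ex.z_comm]
    · rw [← map_mul, Ex.z_sq, map_one]
    · intro h
      exact Ex.z_ne (Ex.iso.injective ((Subgroup.mem_bot.1 h).trans (map_one _).symm))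
    · exact Subgroup.mem_bot.2 (Ex.GE_free (hg 0 (Finset.mem_singleton_self 0)))
  · rintro 𝓕 α hα X _ _ _ e hX ⟨N, hN, hΦ⟩
    obtain ⟨h𝓕, hW⟩ := noNullIsom (Or.inl ⟨α, hα⟩) hX
    obtain ⟨w, hw, -, m, hm, σ, hσ⟩ := rep_of_disp h𝓕 hX hW (ContinuousLinearEquiv.refl ℝ X)
      Ex.GE N hN hΦ
    exact Ex.GE_no_rep hw hm σ hσ

end Pool.Agent.Results.MP_7f333f_an.IntermediateFamilies
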