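import Pool.Agent.Lib.MP_7f333f_an.Lin.Nec
import Pool.Agent.Lib.MP_7f333f_an.Main

set_option autoImplicit false

/-!
A criterion for displayability on the combinatorial Banach spaces of all regular families (and on
all the spaces isomorphic to them). A closed subgroup of `SYM(ℕ)` is topologically displayable on
such a space `X` if and only if some central `z` with `z² = 1` is sent to `-Id` by some bounded
representation on `X`, continuous for the strong operator topology. For the countable closed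
subgroups the criterion holds for the displayability as abstract groups, without continuity. It
applies in particular to all groups with a finite-dimensional orthogonal representation with open
kernel which sends a central `z`, `z² = 1`, to `-1`.
-/

namespace Pool.Agent.Results.MP_7f333f_an.LinearCriterion

open Pool.Agent.Comb7f333f Pool.Agent.Comb7f333f.LPart Pool.Agent.Comb7f333f.TPart

/-- The group `H` is isomorphic, as an abstract group, to the group of linear isometries of an
equivalent norm of `X`. -/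
def Displayable (H : Type*) [Group H] (X : Type*) [NormedAddCommGroup X] [NormedSpace ℝ X] :
    Prop :=
  ∃ N : Seminorm ℝ X, (∃ c C : ℝ, 0 < c ∧ ∀ x, c * ‖x‖ ≤ N x ∧ N x ≤ C * ‖x‖) ∧
    Nonempty (H ≃* isomGroup N)

/-- The group `G` of permutations is isomorphic to the group of linear isometries of an equivalent
norm `N` of `X` by a map `Φ` which is a homeomorphism, for the topology of pointwise convergence on
`G` and the strong operator topology: the elements which fix a large finite set move `x` by less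
than `ε`, and for each `n` there are a finite set `S` of vectors and `ε` such that
`N (Φ g x - x) < ε` for all `x ∈ S` forces `g n = n`. -/
def TopDisplayable (G : Subgroup (Equiv.Perm ℕ)) (X : Type*) [NormedAddCommGroup X]
    [NormedSpace ℝ X] : Prop :=
  ∃ N : Seminorm ℝ X, (∃ c C : ℝ, 0 < c ∧ ∀ x, c * ‖x‖ ≤ N x ∧ N x ≤ C * ‖x‖) ∧
    ∃ Φ : G ≃* isomGroup N,
      (∀ x, ∀ ε > 0, ∃ F : Finset ℕ, ∀ g : G, (∀ n ∈ F, (g : Equiv.Perm ℕ) n = n) →
        N ((Φ g : X ≃ₗ[ℝ] X) x - x) < ε) ∧
      (∀ n, ∃ S : Finset X, ∃ ε > 0, ∀ g : G, (∀ x ∈ S, N ((Φ g : X ≃ₗ[ℝ] X) x - x) < ε) →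
        (g : Equiv.Perm ℕ) n = n)

/-- There are a central `z` with `z² = 1` and a homomorphism `π` into the group of the invertible
linear operators of `X` with `‖π g x‖ ≤ K ‖x‖` for some `K`, which sends `z` to `-Id`. -/
def HasBoundedOddRep (H : Type*) [Group H] (X : Type*) [NormedAddCommGroup X] [NormedSpace ℝ X] :
    Prop :=
  ∃ z : H, (∀ g : H, g * z = z * g) ∧ z * z = 1 ∧ ∃ π : H →* (X →ₗ[ℝ] X),
    (∃ K : ℝ, ∀ g x, ‖π g x‖ ≤ K * ‖x‖) ∧ ∀ x, π z x = -x

/-- There are a central `z` with `z² = 1` and a homomorphism `π` into the group of the invertible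
linear operators of `X` with `‖π g x‖ ≤ K ‖x‖` for some `K`, which sends `z` to `-Id` and is
continuous: the elements which fix a large finite set move `x` by less than `ε`. -/
def HasContinuousOddRep (G : Subgroup (Equiv.Perm ℕ)) (X : Type*) [NormedAddCommGroup X]
    [NormedSpace ℝ X] : Prop :=
  ∃ z : G, (∀ g : G, g * z = z * g) ∧ z * z = 1 ∧ ∃ π : G →* (X →ₗ[ℝ] X),
    (∃ K : ℝ, ∀ g x, ‖π g x‖ ≤ K * ‖x‖) ∧
    (∀ x, ∀ ε > 0, ∃ F : Finset ℕ, ∀ g : G, (∀ n ∈ F, (g : Equiv.Perm ℕ) n = n) →
      ‖π g x - x‖ < ε) ∧ ∀ x, π z x = -x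

/-- There are a central `z` with `z² = 1` and a homomorphism into some orthogonal group `O(m)`,
`m ≥ 1`, which sends `z` to `-1` and is trivial on the pointwise stabiliser of a finite set. -/
def HasOpenOddRep (G : Subgroup (Equiv.Perm ℕ)) : Prop :=
  ∃ z : G, (∀ g : G, g * z = z * g) ∧ z * z = 1 ∧
    ∃ (m : ℕ) (_ : 0 < m) (σ : G →* Matrix.orthogonalGroup (Fin m) ℝ),
      (∃ F : Finset ℕ, ∀ g : G, (∀ n ∈ F, (g : Equiv.Perm ℕ) n = n) → σ g = 1) ∧
        (σ z : Matrix (Fin m) (Fin m) ℝ) = -1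

/-- Let `𝓕` be a regular family, `Y` its combinatorial Banach space and `X` a Banach space
isomorphic to `Y`.

(1) A closed subgroup `G` of `SYM(ℕ)` is topologically displayable on `X` if and only if it has a
central `z` with `z² = 1` and a bounded representation on `X`, continuous for the strong operator
topology, which sends `z` to `-Id`.

(2) A countable closed subgroup `G` of `SYM(ℕ)` is displayable on `X`, as an abstract group, if and
only if it has a central `z` with `z² = 1` and a bounded representation on `X` which sends `z` to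
`-Id`.

(3) In particular `G` is topologically displayable on `X` if it has a central `z` with `z² = 1` and
a homomorphism into some orthogonal group `O(m)`, `m ≥ 1`, which is trivial on the pointwise
stabiliser of a finite set and sends `z` to `-1`. -/
theorem result (𝓕 : Set (Finset ℕ)) (h𝓕 : IsRegular 𝓕)
    (Y : Type*) [NormedAddCommGroup Y] [NormedSpace ℝ Y] [CompleteSpace Y] (e : ℕ → Y)
    (hY : IsCombSpace 𝓕 e)
    (X : Type*) [NormedAddCommGroup X] [NormedSpace ℝ X] (hXY : Nonempty (X ≃L[ℝ] Y)) :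
    (∀ G : Subgroup (Equiv.Perm ℕ), IsClosedPerm G →
      (TopDisplayable G X ↔ HasContinuousOddRep G X)) ∧
    (∀ (G : Subgroup (Equiv.Perm ℕ)) [Countable G], IsClosedPerm G →
      (Displayable G X ↔ HasBoundedOddRep G X)) ∧
    ∀ G : Subgroup (Equiv.Perm ℕ), IsClosedPerm G → HasOpenOddRep G → TopDisplayable G X := by
  obtain ⟨T⟩ := hXY
  have key : ∀ G : Subgroup (Equiv.Perm ℕ), TopDisp G Y → TopDisplayable G X := by
    intro G h
    obtain ⟨N, hN, Φ, hΦ1, hΦ2⟩ := topDisp_transfer T h
    refine ⟨N, hN, Φ, hΦ1, fun n => ?_⟩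
    obtain ⟨x, ε, hε, hx⟩ := hΦ2 n
    exact ⟨{x}, ε, hε, fun g hg => hx g (hg x (Finset.mem_singleton_self x))⟩
  have suff : ∀ G : Subgroup (Equiv.Perm ℕ), IsClosedPerm G →
      HasContinuousOddRep G X → TopDisplayable G X := by
    rintro G hG ⟨z, hz, hzz, π, ⟨K, hK⟩, hc, hπz⟩
    obtain ⟨π', hπ', A, B, hA, hB, hA', hB'⟩ := transport_rep T.symm π
    refine key G (main_lin h𝓕 hY G hG z hz hzz π' (A * (|K| * B)) (fun g y => ?_)
      (fun y ε hε => ?_) fun y => ?_)
    · rw [hπ']
      refine (hA' _).trans ?_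
      have h1 := hK g (T.symm y)
      have h2 := hB' y
      have h3 : K * ‖T.symm y‖ ≤ |K| * (B * ‖y‖) :=
        mul_le_mul (le_abs_self K) h2 (norm_nonneg _) (abs_nonneg K)
      calc A * ‖π g (T.symm y)‖ ≤ A * (|K| * (B * ‖y‖)) :=
            mul_le_mul_of_nonneg_left (h1.trans h3) hA
        _ = A * (|K| * B) * ‖y‖ := by ring
    · obtain ⟨F, hF⟩ := hc (T.symm y) (ε / (A + 1)) (by positivity)
      refine ⟨F, fun g hg => ?_⟩
      have e1 : π' g y - y = T.symm.symm (π g (T.symm y) - T.symm y) := by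
        rw [hπ', map_sub, T.symm.symm_apply_apply]
      rw [e1]
      refine (hA' _).trans_lt ?_
      have e3 := mul_le_mul_of_nonneg_left (hF g hg).le hA
      refine e3.trans_lt ?_
      rw [mul_div_assoc', div_lt_iff₀ (by positivity)]
      nlinarith
    · rw [hπ', hπz, map_neg, T.symm.symm_apply_apply]
  refine ⟨fun G hG => ⟨?_, suff G hG⟩, fun G hcount hG => ⟨?_, ?_⟩, fun G hG => ?_⟩
  · rintro ⟨N, hN, Φ, hΦ, -⟩
    obtain ⟨z, hz, hzz, π, hK, hπz, hπ⟩ := oddRep_of_disp N hN Φ
    obtain ⟨c, C, hc, hN⟩ := hN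
    refine ⟨z, hz, hzz, π, hK, fun x ε hε => ?_, hπz⟩
    obtain ⟨F, hF⟩ := hΦ x (c * ε) (by positivity)
    refine ⟨F, fun g hg => ?_⟩
    have h1 := (hN (π g x - x)).1
    have h2 := hF g hg
    rw [← hπ] at h2
    exact lt_of_mul_lt_mul_left (h1.trans_lt h2) hc.le
  · rintro ⟨N, hN, ⟨Φ⟩⟩
    obtain ⟨z, hz, hzz, π, hK, hπz, -⟩ := oddRep_of_disp N hN Φ
    exact ⟨z, hz, hzz, π, hK, hπz⟩
  · rintro ⟨z, hz, hzz, π, hK, hπz⟩
    obtain ⟨F, hF⟩ := exists_finset_of_countable hG
    obtain ⟨N, hN, Φ, -⟩ := suff G hG ⟨z, hz, hzz, π, hK, fun x ε hε => ⟨F, fun g hg => by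
      rw [hF g hg, map_one, Module.End.one_apply, sub_self, norm_zero]
      exact hε⟩, hπz⟩
    exact ⟨N, hN, ⟨Φ⟩⟩
  · rintro ⟨z, hz, hzz, m, hm, σ, hσ, hσz⟩
    exact key G (main h𝓕 hY G hG z hz hzz hm σ hσ hσz)

end Pool.Agent.Results.MP_7f333f_an.LinearCriterion
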