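import Pool.Agent.Lib.MP_7f333f_an.Tame.Final
import Pool.Agent.Lib.MP_7f333f_an.Tame.SchEx
import Pool.Agent.Lib.MP_7f333f_an.Tame.Transfer

set_option autoImplicit false

/-!
The groups displayable on the combinatorial Banach spaces of the Schreier families of all the
countable orders `α ≥ 1`, of the size families and of all the tame regular families, and on all
the spaces isomorphic to these. The closed subgroups of `SYM(ℕ)` which are topologically
displayable on such a space are exactly those with a central involution sent to `-1` by some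
finite-dimensional orthogonal representation with open kernel. Every group which is displayable,
even only as an abstract group, has a central involution and a finite-dimensional orthogonal
representation sending it to `-1`; for the countable closed subgroups of `SYM(ℕ)` this condition
is also sufficient.
-/

namespace Pool.Agent.Results.MP_7f333f_an.SchreierFamilies

open Pool.Agent.Comb7f333f Pool.Agent.Comb7f333f.DPart Pool.Agent.Comb7f333f.TPart

/-- The size families: for some nondecreasing unbounded `φ` and some `K`, all `k ∈ F ∈ 𝓕` satisfy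
`|F| ≤ K φ(k)`, and `𝓕` contains each finite set `F` with `K |F| ≤ φ(k)` for all `k ∈ F`. -/
def SizeFam (𝓕 : Set (Finset ℕ)) : Prop :=
  ∃ (φ : ℕ → ℕ) (K : ℕ), Monotone φ ∧ (∀ n, ∃ k, n ≤ φ k) ∧
    (∀ F ∈ 𝓕, ∀ k ∈ F, F.card ≤ K * φ k) ∧
    ∀ F : Finset ℕ, (∀ k ∈ F, K * F.card ≤ φ k) → F ∈ 𝓕

/-- The group `H` is isomorphic, as an abstract group, to the group of linear isometries of an
equivalent norm of `X`. -/
def Displayable (H : Type*) [Group H] (X : Type*) [NormedAddCommGroup X] [NormedSpace ℝ X] :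
    Prop :=
  ∃ N : Seminorm ℝ X, (∃ c C : ℝ, 0 < c ∧ ∀ x, c * ‖x‖ ≤ N x ∧ N x ≤ C * ‖x‖) ∧
    Nonempty (H ≃* isomGroup N)

/-- The group `G` of permutations is isomorphic to the group of linear isometries of an equivalent
norm `N` of `X` by a map `Φ` which is a homeomorphism, for the topology of pointwise convergence on
`G` and the strong operator topology: the elements which fix a large finite set move `x` by less
than `ε`, and for each `n` there are a finite set `S` of vectors and `ε` such that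
`N (Φ g x - x) < ε` for all `x ∈ S` forces `g n = n`. -/
def TopDisplayable (G : Subgroup (Equiv.Perm ℕ)) (X : Type*) [NormedAddCommGroup X]
    [NormedSpace ℝ X] : Prop :=
  ∃ N : Seminorm ℝ X, (∃ c C : ℝ, 0 < c ∧ ∀ x, c * ‖x‖ ≤ N x ∧ N x ≤ C * ‖x‖) ∧
    ∃ Φ : G ≃* isomGroup N,
      (∀ x, ∀ ε > 0, ∃ F : Finset ℕ, ∀ g : G, (∀ n ∈ F, (g : Equiv.Perm ℕ) n = n) →
        N ((Φ g : X ≃ₗ[ℝ] X) x - x) < ε) ∧
      (∀ n, ∃ S : Finset X, ∃ ε > 0, ∀ g : G, (∀ x ∈ S, N ((Φ g : X ≃ₗ[ℝ] X) x - x) < ε) →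
        (g : Equiv.Perm ℕ) n = n)

/-- There are a central `z` with `z² = 1` and a homomorphism into some orthogonal group `O(m)`,
`m ≥ 1`, which sends `z` to `-1`. -/
def HasOddRep (H : Type*) [Group H] : Prop :=
  ∃ z : H, (∀ g : H, g * z = z * g) ∧ z * z = 1 ∧
    ∃ (m : ℕ) (_ : 0 < m) (σ : H →* Matrix.orthogonalGroup (Fin m) ℝ),
      (σ z : Matrix (Fin m) (Fin m) ℝ) = -1

/-- There are a central `z` with `z² = 1` and a homomorphism into some orthogonal group `O(m)`,
`m ≥ 1`, which sends `z` to `-1` and is trivial on the pointwise stabiliser of a finite set. -/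
def HasOpenOddRep (G : Subgroup (Equiv.Perm ℕ)) : Prop :=
  ∃ z : G, (∀ g : G, g * z = z * g) ∧ z * z = 1 ∧
    ∃ (m : ℕ) (_ : 0 < m) (σ : G →* Matrix.orthogonalGroup (Fin m) ℝ),
      (∃ F : Finset ℕ, ∀ g : G, (∀ n ∈ F, (g : Equiv.Perm ℕ) n = n) → σ g = 1) ∧
        (σ z : Matrix (Fin m) (Fin m) ℝ) = -1

/-- There are Schreier families of all the orders `α`, `0 < α < ω₁`. Let `𝓕` be a Schreier family
of some order, or a regular family which is a size family, or which is tame and large. Let `Y` be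
its combinatorial Banach space and `X` a Banach space isomorphic to `Y`.

(1) A closed subgroup `G` of `SYM(ℕ)` is topologically displayable on `X` if and only if it has a
central `z` with `z² = 1` and a homomorphism into some orthogonal group `O(m)`, `m ≥ 1`, which is
trivial on the pointwise stabiliser of a finite set and sends `z` to `-1`.

(2) Every group `H` which is displayable on `X`, even only as an abstract group, has a central `z`
with `z² = 1` and a homomorphism into some orthogonal group `O(m)`, `m ≥ 1`, which sends `z` to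
`-1`.

(3) For the countable closed subgroups of `SYM(ℕ)` the condition of (2) is also sufficient. -/
theorem result :
    (∀ α : Ordinal.{0}, 0 < α → α < Ordinal.omega 1 → ∃ 𝓕, SchreierFam α 𝓕) ∧
    ∀ (𝓕 : Set (Finset ℕ)),
    ((∃ α, SchreierFam α 𝓕) ∨ IsRegular 𝓕 ∧ (SizeFam 𝓕 ∨ Tame 𝓕 ∧ Large 𝓕)) →
    ∀ (Y : Type*) [NormedAddCommGroup Y] [NormedSpace ℝ Y] [CompleteSpace Y] (e : ℕ → Y),
    IsCombSpace 𝓕 e →
    ∀ (X : Type*) [NormedAddCommGroup X] [NormedSpace ℝ X], Nonempty (X ≃L[ℝ] Y) →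
    (∀ G : Subgroup (Equiv.Perm ℕ), IsClosedPerm G →
      (TopDisplayable G X ↔ HasOpenOddRep G)) ∧
    (∀ (H : Type*) [Group H], Displayable H X → HasOddRep H) ∧
    ∀ (G : Subgroup (Equiv.Perm ℕ)) [Countable G], IsClosedPerm G →
      HasOddRep G → Displayable G X := by
  refine ⟨fun α h0 hα => exists_schreier α h0 hα, ?_⟩
  intro 𝓕 hF Y _ _ _ e hY X _ _ ⟨T⟩
  obtain ⟨h𝓕, hW⟩ : IsRegular 𝓕 ∧ NoNullIsom e := by
    rcases hF with h | ⟨hR, ⟨φ, K, hmono, hunb, hsmall, hlarge⟩ | h⟩
    · exact noNullIsom (Or.inl h) hY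
    · refine ⟨hR, ?_⟩
      have hpos : ∀ k, 1 ≤ φ k := by
        intro k
        have h1 := hsmall {k} (hR.singleton k) k (Finset.mem_singleton_self k)
        rw [Finset.card_singleton] at h1
        by_contra hcon
        have h2 : φ k = 0 := by omega
        rw [h2, mul_zero] at h1
        omega
      exact SPart.noNullIsom_of_sizeLike ⟨φ, hmono, hunb, hpos⟩
        (fun Y _ _ _ e' hY N c C hc hN g hg => SPart.no_null_seq hY hc hN g hg) hR hY
        ⟨K, hsmall, hlarge⟩
    · exact noNullIsom (Or.inr ⟨hR, h⟩) hY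
  have h1 : ∀ G : Subgroup (Equiv.Perm ℕ), IsClosedPerm G →
      (TopDisplayable G X ↔ HasOpenOddRep G) := by
    refine fun G hG => ⟨fun ⟨N, hN, Φ, hΦ, _⟩ => open_rep_of_disp h𝓕 hY hW T G N hN Φ hΦ,
      fun h => ?_⟩
    obtain ⟨N, hN, Φ, hΦ1, hΦ2⟩ := topDisp_transfer T ((displayable_iff h𝓕 hY hW G hG).2 h)
    refine ⟨N, hN, Φ, hΦ1, fun n => ?_⟩
    obtain ⟨x, ε, hε, hx⟩ := hΦ2 n
    exact ⟨{x}, ε, hε, fun g hg => hx g (hg x (Finset.mem_singleton_self x))⟩
  refine ⟨h1, fun H _ ⟨N, hN, hΦ⟩ => rep_of_disp h𝓕 hY hW T H N hN hΦ, fun G _ hG => ?_⟩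
  rintro ⟨z, hz, hzz, m, hm, σ, hσ⟩
  obtain ⟨F, hF⟩ := exists_finset_of_countable hG
  obtain ⟨N, hN, Φ, _⟩ := (h1 G hG).2 ⟨z, hz, hzz, m, hm, σ, ⟨F, fun g hg => by
    rw [hF g hg, map_one]⟩, hσ⟩
  exact ⟨N, hN, ⟨Φ⟩⟩

end Pool.Agent.Results.MP_7f333f_an.SchreierFamilies
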